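import Pool.Agent.Y791.MS.Stm

set_option autoImplicit false

/-! MS-ELIM: the locus of the common roots, by resultants. -/

namespace Pool.Agent.Y791.MS

open Polynomial

namespace Elim

variable {F : Type} [Field F] {M N : ℕ}

/-- the combination with the powers of `t` -/
noncomputable def hs (g : Fin N → Polynomial (MvPolynomial (Fin M) F)) (t : F) :
    Polynomial (MvPolynomial (Fin M) F) :=
  ∑ l : Fin N, C (MvPolynomial.C (t ^ (l : ℕ))) * g l

/-- a bound for the degrees -/
noncomputable def dg (g : Fin N → Polynomial (MvPolynomial (Fin M) F)) : ℕ :=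
  Finset.univ.sup fun l => (g l).natDegree

/-- the second polynomial of the resultant -/
noncomputable def G (f : Polynomial (MvPolynomial (Fin M) F))
    (g : Fin N → Polynomial (MvPolynomial (Fin M) F)) (t : F) :
    Polynomial (MvPolynomial (Fin M) F) :=
  X ^ (dg g + 1) * f + hs g t

lemma hs_deg (g : Fin N → Polynomial (MvPolynomial (Fin M) F)) (t : F) :
    (hs g t).natDegree ≤ dg g := by
  unfold hs
  refine natDegree_sum_le_of_forall_le _ _ fun l _ => ?_
  refine (natDegree_C_mul_le _ _).trans ?_
  exact Finset.le_sup (f := fun l => (g l).natDegree) (Finset.mem_univ l)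

lemma G_monic {f : Polynomial (MvPolynomial (Fin M) F)} (hf : f.Monic)
    (g : Fin N → Polynomial (MvPolynomial (Fin M) F)) (t : F) : (G f g t).Monic := by
  have h1 : (X ^ (dg g + 1) * f).Monic := (monic_X_pow _).mul hf
  unfold G
  refine h1.add_of_left ?_
  have h2 : (X ^ (dg g + 1) * f).natDegree = dg g + 1 + f.natDegree := by
    rw [(monic_X_pow _).natDegree_mul hf, natDegree_X_pow]
  rw [degree_eq_natDegree h1.ne_zero, h2]
  refine degree_le_natDegree.trans_lt ?_
  have h3 := hs_deg g t
  exact_mod_cast (by omega : (hs g t).natDegree < dg g + 1 + f.natDegree)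

lemma G_eval (f : Polynomial (MvPolynomial (Fin M) F))
    (g : Fin N → Polynomial (MvPolynomial (Fin M) F)) (t : F) (z : Fin M → F) (x : F) :
    ((G f g t).map (MvPolynomial.eval z)).eval x =
      x ^ (dg g + 1) * (f.map (MvPolynomial.eval z)).eval x +
        ∑ l : Fin N, t ^ (l : ℕ) * ((g l).map (MvPolynomial.eval z)).eval x := by
  unfold G hs
  rw [Polynomial.map_add, Polynomial.map_mul, Polynomial.map_pow, map_X, Polynomial.map_sum,
    eval_add, eval_mul, eval_pow, eval_X, eval_finsetSum]
  congr 1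
  refine Finset.sum_congr rfl fun l _ => ?_
  rw [Polynomial.map_mul, map_C, eval_mul, eval_C, MvPolynomial.eval_C]

/-- the resultant -/
noncomputable def Rs (f : Polynomial (MvPolynomial (Fin M) F))
    (g : Fin N → Polynomial (MvPolynomial (Fin M) F)) (t : F) : MvPolynomial (Fin M) F :=
  resultant f (G f g t)

lemma Rs_eval [IsAlgClosed F] {f : Polynomial (MvPolynomial (Fin M) F)} (hf : f.Monic)
    (g : Fin N → Polynomial (MvPolynomial (Fin M) F)) (t : F) (z : Fin M → F) :
    MvPolynomial.eval z (Rs f g t) = 0 ↔ ∃ x : F, (f.map (MvPolynomial.eval z)).IsRoot x ∧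
      ∑ l : Fin N, t ^ (l : ℕ) * ((g l).map (MvPolynomial.eval z)).eval x = 0 := by
  have h1 : MvPolynomial.eval z (Rs f g t) = resultant (f.map (MvPolynomial.eval z))
      ((G f g t).map (MvPolynomial.eval z)) := by
    unfold Rs
    rw [← resultant_map_map, hf.natDegree_map, (G_monic hf g t).natDegree_map]
  have h2 := isUnit_resultant_iff_isCoprime (f := f.map (MvPolynomial.eval z))
    (g := (G f g t).map (MvPolynomial.eval z)) (hf.map _)
  rw [← h1, isUnit_iff_ne_zero, isCoprime_iff_aeval_ne_zero_of_isAlgClosed F F] at h2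
  rw [← not_iff_not]
  rw [← ne_eq, h2]
  push Not
  refine forall_congr' fun x => ?_
  simp only [coe_aeval_eq_eval, IsRoot.def]
  rw [G_eval]
  constructor
  · rintro (h | h) h3
    · exact absurd h3 h
    · rwa [h3, mul_zero, zero_add] at h
  · intro h
    by_cases h3 : (f.map (MvPolynomial.eval z)).eval x = 0
    · right
      rw [h3, mul_zero, zero_add]
      exact h h3
    · exact Or.inl h3

/-- a polynomial with many zeros -/
lemma many (c : Fin N → F) (S : Finset F) (hS : N < S.card)
    (h : ∀ t ∈ S, ∑ l : Fin N, t ^ (l : ℕ) * c l = 0) : ∀ l, c l = 0 := by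
  set q : Polynomial F := ∑ l : Fin N, C (c l) * X ^ (l : ℕ) with hq
  have h1 : q.natDegree ≤ N := by
    rw [hq]
    refine natDegree_sum_le_of_forall_le _ _ fun l _ => ?_
    exact (natDegree_C_mul_X_pow_le _ _).trans l.2.le
  have h2 : q = 0 := by
    refine eq_zero_of_natDegree_lt_card_of_eval_eq_zero' q S (fun t ht => ?_)
      (h1.trans_lt hS)
    rw [hq, eval_finsetSum, ← h t ht]
    refine Finset.sum_congr rfl fun l _ => ?_
    rw [eval_mul, eval_C, eval_pow, eval_X, mul_comm]
  intro l
  have h3 : q.coeff (l : ℕ) = c l := by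
    rw [hq, finsetSum_coeff, Finset.sum_eq_single l]
    · rw [coeff_C_mul, coeff_X_pow, if_pos rfl, mul_one]
    · intro j _ hj
      rw [coeff_C_mul, coeff_X_pow, if_neg (fun h4 => hj (Fin.ext h4.symm)), mul_zero]
    · intro hl
      exact absurd (Finset.mem_univ l) hl
  rw [← h3, h2, coeff_zero]

end Elim

open Elim in
theorem elim : S_ELIM := by
  classical
  intro F _ _ M N f hf g
  have hinf : Infinite F := IsAlgClosed.instInfinite
  obtain ⟨T, hT⟩ := Infinite.exists_subset_card_eq F (f.natDegree * N + 1)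
  refine ⟨T.image (Rs f g), fun z => ⟨fun h => ?_, ?_⟩⟩
  · have h1 : ∀ t : F, ∃ x : F, t ∈ T → (f.map (MvPolynomial.eval z)).IsRoot x ∧
        ∑ l : Fin N, t ^ (l : ℕ) * ((g l).map (MvPolynomial.eval z)).eval x = 0 := by
      intro t
      by_cases ht : t ∈ T
      · obtain ⟨x, hx⟩ := (Rs_eval hf g t z).1 (h _ (Finset.mem_image_of_mem _ ht))
        exact ⟨x, fun _ => hx⟩
      · exact ⟨0, fun h2 => absurd h2 ht⟩
    choose r hr using h1
    have hm : (f.map (MvPolynomial.eval z)).Monic := hf.map _
    have h2 : ∀ t ∈ T, r t ∈ (f.map (MvPolynomial.eval z)).roots.toFinset := by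
      intro t ht
      rw [Multiset.mem_toFinset, mem_roots hm.ne_zero]
      exact (hr t ht).1
    have h3 : (f.map (MvPolynomial.eval z)).roots.toFinset.card ≤ f.natDegree := by
      refine (Multiset.toFinset_card_le _).trans ((card_roots' _).trans ?_)
      rw [hf.natDegree_map]
    have h4 : (f.map (MvPolynomial.eval z)).roots.toFinset.card * N < T.card := by
      rw [hT]
      exact Nat.lt_succ_of_le (Nat.mul_le_mul_right N h3)
    obtain ⟨x, hx, hc⟩ := Finset.exists_lt_card_fiber_of_mul_lt_card_of_maps_to h2 h4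
    rw [Multiset.mem_toFinset, mem_roots hm.ne_zero] at hx
    refine ⟨x, hx, fun l => ?_⟩
    refine many (fun l => ((g l).map (MvPolynomial.eval z)).eval x) _ hc (fun t ht => ?_) l
    rw [Finset.mem_filter] at ht
    have h5 := (hr t ht.1).2
    rwa [ht.2] at h5
  · rintro ⟨x, hx, hg⟩ P hP
    obtain ⟨t, _, rfl⟩ := Finset.mem_image.1 hP
    refine (Rs_eval hf g t z).2 ⟨x, hx, ?_⟩
    refine Finset.sum_eq_zero fun l _ => ?_
    rw [hg l, mul_zero]

end Pool.Agent.Y791.MS
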