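import Pool.Agent.Y791.MS.Stm

set_option autoImplicit false

/-! MS-SER: a power series identity and a finite sum (helper974) -/

namespace Pool.Agent.Y791.MS

theorem ser_co {A : Type} [CommRing A] (L : A) (k : ℕ) (hk : 2 ≤ k) :
    PowerSeries.mk (co L k) = (1 - PowerSeries.C L * PowerSeries.X ^ k) *
      (1 - PowerSeries.X) := by
  have h0 : (1 - PowerSeries.C L * PowerSeries.X ^ k) * (1 - PowerSeries.X) =
      1 - (PowerSeries.X : PowerSeries A) - PowerSeries.C L * PowerSeries.X ^ k +
        PowerSeries.C L * PowerSeries.X ^ (k + 1) := by ring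
  rw [h0]
  ext j
  simp only [PowerSeries.coeff_mk, map_add, map_sub, PowerSeries.coeff_one, PowerSeries.coeff_X,
      PowerSeries.coeff_C_mul, PowerSeries.coeff_X_pow, co]
  by_cases h1 : j = 0
  · subst h1
    have h2 : ¬ (0 = k) := by omega
    have h3 : ¬ (0 = k + 1) := by omega
    simp [h2]
  · by_cases h2 : j = 1
    · subst h2
      have h3 : ¬ (1 = k) := by omega
      have h4 : ¬ (k = 0) := by omega
      simp [h3, h4]
    · by_cases h3 : j = k
      · simp only [if_neg h1, if_neg h2, if_pos h3]
        have h4 : ¬ (j = k + 1) := by omega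
        simp [h4]
      · by_cases h4 : j = k + 1
        · simp only [if_neg h1, if_neg h2, if_neg h3, if_pos h4]
          simp
        · simp [h1, h2, h3, h4]

theorem ps : S_PS := by
  intro A _ L k hk
  rw [ser_co L k hk, ← mul_assoc]
  have h1 : PowerSeries.mk (fun d => ∑ m ∈ Finset.range (d / k + 1), L ^ m) *
      (1 - PowerSeries.C L * PowerSeries.X ^ k) = PowerSeries.mk 1 := by
    have h2 : PowerSeries.mk (fun d => ∑ m ∈ Finset.range (d / k + 1), L ^ m) *
      (1 - PowerSeries.C L * PowerSeries.X ^ k) =
      PowerSeries.mk (fun d => ∑ m ∈ Finset.range (d / k + 1), L ^ m) - PowerSeries.C L *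
        (PowerSeries.mk (fun d => ∑ m ∈ Finset.range (d / k + 1), L ^ m) *
          PowerSeries.X ^ k) := by ring
    rw [h2]
    ext j
    simp only [map_sub, PowerSeries.coeff_C_mul, PowerSeries.coeff_mul_X_pow',
      PowerSeries.coeff_mk, Pi.one_apply]
    by_cases h3 : k ≤ j
    · obtain ⟨d, rfl⟩ := Nat.exists_eq_add_of_le' h3
      have h4 : (d + k) / k = d / k + 1 := Nat.add_div_right d (by omega)
      rw [if_pos h3, h4, Nat.add_sub_cancel, Finset.sum_range_succ' _ (d / k + 1),
        Finset.mul_sum]
      have h5 : ∑ i ∈ Finset.range (d / k + 1), L ^ (i + 1) =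
          ∑ i ∈ Finset.range (d / k + 1), L * L ^ i :=
        Finset.sum_congr rfl fun i _ => pow_succ' L i
      rw [h5, pow_zero, add_sub_cancel_left]
    · rw [if_neg h3, Nat.div_eq_of_lt (by omega)]
      simp
  rw [h1]
  exact PowerSeries.mk_one_mul_one_sub_eq_one A

theorem sm : S_SUM := by
  intro A _ _ L I k n r hk
  have h := hasSum_sum_of_ne_finset_zero (f := fun j => co L k j * I ^ (r * (j * n / k)))
    (s := ({0, 1, k, k + 1} : Finset ℕ)) (L := .unconditional ℕ) (by
      intro j hj
      simp only [Finset.mem_insert, Finset.mem_singleton, not_or] at hj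
      simp only [co, if_neg hj.1, if_neg hj.2.1, if_neg hj.2.2.1, if_neg hj.2.2.2, zero_mul])
  have e : ∑ j ∈ ({0, 1, k, k + 1} : Finset ℕ), co L k j * I ^ (r * (j * n / k)) =
      (1 - I ^ (r * (n / k))) * (1 - L * I ^ (r * n)) := by
    have h0 : (0 : ℕ) ∉ ({1, k, k + 1} : Finset ℕ) := by
      simp only [Finset.mem_insert, Finset.mem_singleton, not_or]
      omega
    have h1 : (1 : ℕ) ∉ ({k, k + 1} : Finset ℕ) := by
      simp only [Finset.mem_insert, Finset.mem_singleton, not_or]
      omega
    have h2 : (k : ℕ) ∉ ({k + 1} : Finset ℕ) := by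
      simp only [Finset.mem_singleton]
      omega
    rw [Finset.sum_insert h0, Finset.sum_insert h1, Finset.sum_insert h2, Finset.sum_singleton]
    have c0 : co L k 0 = 1 := by simp [co]
    have c1 : co L k 1 = -1 := by simp [co]
    have c2 : co L k k = -L := by
      have a1 : ¬ (k = 0) := by omega
      have a2 : ¬ (k = 1) := by omega
      simp [co, a1, a2]
    have c3 : co L k (k + 1) = L := by
      have a1 : ¬ (k = 0) := by omega
      simp [co, a1]
    have d2 : k * n / k = n := Nat.mul_div_cancel_left n (by omega)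
    have d3 : (k + 1) * n / k = n + n / k := by
      rw [add_mul, one_mul, Nat.mul_add_div (by omega)]
    have d1 : 1 * n / k = n / k := by rw [one_mul]
    rw [c0, c1, c2, c3, d1, d2, d3, zero_mul, Nat.zero_div, mul_zero, pow_zero, mul_add r n,
      pow_add]
    ring
  rw [e] at h
  exact h

end Pool.Agent.Y791.MS
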