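import Pool.Agent.Y791.MS.Stm

set_option autoImplicit false

/-! Hasse derivatives and root multiplicities; coprime tuples (MS-Z0, by helper455). -/

namespace Pool.Agent.Y791.MS

open Polynomial

theorem has : S_HAS := by
  intro F _ p x n hp
  rw [Polynomial.le_rootMultiplicity_iff hp]
  have h0 : taylorEquiv x ((X - C x) ^ n) = (X : F[X]) ^ n := by
    rw [map_pow]
    congr 1
    show taylor x (X - C x) = X
    rw [map_sub, taylor_X, taylor_C, add_sub_cancel_right]
  have h1 : (X - C x) ^ n ∣ p ↔ X ^ n ∣ taylor x p := by
    constructor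
    · intro h
      have h2 := map_dvd (taylorEquiv x) h
      rw [h0] at h2
      exact h2
    · intro h
      have h2 : taylorEquiv x ((X - C x) ^ n) ∣ taylorEquiv x p := by
        rw [h0]
        exact h
      exact (map_dvd_iff (taylorEquiv x)).1 h2
  rw [h1, X_pow_dvd_iff]
  simp only [taylor_coeff, IsRoot.def]

theorem z0 : S_Z0 := by
  intro F _ _ r n m hr hn hrn hm
  rcases Nat.lt_or_ge 1 r with h | h
  · refine ⟨fun i j => if (i : ℕ) = 0 then 0 else if (j : ℕ) = 0 then 1 else 0, fun x => ?_⟩
    have hm0 : m ≠ 0 := by omega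
    by_cases hx : x = 0
    · refine ⟨⟨1, h⟩, ?_⟩
      rw [rootMultiplicity_eq_zero]
      · omega
      · intro hroot
        rw [IsRoot.def, hx, eval_add, eval_pow, eval_X, zero_pow hm0, zero_add,
          eval_finsetSum, Finset.sum_eq_single ⟨0, by omega⟩] at hroot
        · simp at hroot
        · intro j _ hj
          have hj0 : (j : ℕ) ≠ 0 := fun h' => hj (Fin.ext h')
          simp [hj0]
        · intro h'
          exact absurd (Finset.mem_univ _) h'
    · refine ⟨⟨0, by omega⟩, ?_⟩
      rw [rootMultiplicity_eq_zero]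
      · omega
      · intro hroot
        simp only [if_true, map_zero, zero_mul, Finset.sum_const_zero, add_zero] at hroot
        rw [IsRoot.def, eval_pow, eval_X] at hroot
        exact hx (pow_eq_zero_iff hm0 |>.1 hroot)
  · have hr1 : r = 1 := by omega
    have hn2 : 2 ≤ n := by
      rw [hr1] at hrn
      omega
    let c : Fin m → F := fun i => Infinite.natEmbedding F i
    have hc : Function.Injective c := fun i j h' => Fin.ext ((Infinite.natEmbedding F).injective h')
    let p : F[X] := ∏ i, (X - C (c i))
    have hp : p.Monic := monic_prod_of_monic _ _ fun i _ => monic_X_sub_C _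
    have hdeg : p.natDegree = m := by
      show (∏ i, (X - C (c i))).natDegree = m
      rw [natDegree_finsetProd_X_sub_C_eq_card, Finset.card_univ, Fintype.card_fin]
    have hsep : p.Separable := separable_prod_X_sub_C_iff.2 hc
    have hsum : X ^ m + ∑ j : Fin m, C (p.coeff (j : ℕ)) * X ^ (j : ℕ) = p := by
      have h1 := hp.as_sum
      rw [hdeg] at h1
      rw [← Fin.sum_univ_eq_sum_range (fun i => C (p.coeff i) * X ^ i) m] at h1
      exact h1.symm
    refine ⟨fun _ j => p.coeff j, fun x => ⟨⟨0, by omega⟩, ?_⟩⟩
    rw [hsum]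
    exact lt_of_le_of_lt (rootMultiplicity_le_one_of_separable hsep x) hn2

end Pool.Agent.Y791.MS
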