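import Mathlib

set_option autoImplicit false

/-! Statements (Mathlib only) for the non-stabilization theorem -/

namespace Pool.Agent.Y791.MS

open Polynomial

/-- MS-ELIM: the locus where a monic polynomial and finitely many further polynomials have a common
root is the common zero set of finitely many polynomials. -/
def S_ELIM : Prop :=
  ∀ (F : Type) [Field F] [IsAlgClosed F] (M N : ℕ) (f : Polynomial (MvPolynomial (Fin M) F)),
    f.Monic → ∀ g : Fin N → Polynomial (MvPolynomial (Fin M) F),
      ∃ R : Finset (MvPolynomial (Fin M) F), ∀ z : Fin M → F,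
        (∀ P ∈ R, MvPolynomial.eval z P = 0) ↔
          ∃ x : F, (f.map (MvPolynomial.eval z)).IsRoot x ∧
            ∀ l, ((g l).map (MvPolynomial.eval z)).IsRoot x

/-- MS-HAS: root multiplicities and Hasse derivatives. -/
def S_HAS : Prop :=
  ∀ (F : Type) [Field F] (p : Polynomial F) (x : F) (n : ℕ), p ≠ 0 →
    (n ≤ p.rootMultiplicity x ↔ ∀ j < n, (Polynomial.hasseDeriv j p).IsRoot x)

/-- MS-Z0: monic polynomials of degree `m` whose greatest common divisor is `n`-powerfree. -/
def S_Z0 : Prop :=
  ∀ (F : Type) [Field F] [Infinite F] (r n m : ℕ), 1 ≤ r → 1 ≤ n → 2 ≤ r * n → 1 ≤ m →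
    ∃ a : Fin r → Fin m → F, ∀ x : F, ∃ i,
      (Polynomial.X ^ m + ∑ j, Polynomial.C (a i j) * Polynomial.X ^ (j : ℕ)).rootMultiplicity x < n

/-- the coefficients of `(1 - t)(1 - L t ^ k)` -/
noncomputable def co {A : Type} [CommRing A] (L : A) (k j : ℕ) : A :=
  if j = 0 then 1 else if j = 1 then -1 else if j = k then -L else if j = k + 1 then L else 0

/-- MS-PS: the inverse power series. -/
def S_PS : Prop :=
  ∀ (A : Type) [CommRing A] (L : A) (k : ℕ), 2 ≤ k →
    PowerSeries.mk (fun d => ∑ m ∈ Finset.range (d / k + 1), L ^ m) * PowerSeries.mk (co L k) = 1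

/-- MS-SUM: the displayed value. -/
def S_SUM : Prop :=
  ∀ (A : Type) [CommRing A] [TopologicalSpace A] (L I : A) (k n r : ℕ), 2 ≤ k →
    HasSum (fun j => co L k j * I ^ (r * (j * n / k)))
      ((1 - I ^ (r * (n / k))) * (1 - L * I ^ (r * n)))

end Pool.Agent.Y791.MS
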